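import Mathlib
import Pool.Agent.Lib.helper8.Bnd

set_option autoImplicit false

namespace Pool.Agent.H.MP_59918e_co

open Pool.Agent.Lib.helper8

def a (i j : ℕ) : Bool := Nat.testBit 29519476503898636394647028227947797183927294615648521830368 (14 * i + j)

def st (x i : ℕ) : Bool := Nat.testBit 24261990932094592478769019793541840903 (14 * x + i)

def w (i : ℕ) : ℕ := 816217548965643464581150584876588 / 256 ^ i % 256

def G : SimpleGraph (Fin 14) where
  Adj u v := a u.val v.val = true
  symm := ⟨by decide +kernel⟩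
  loopless := ⟨by decide +kernel⟩

instance : DecidableRel G.Adj := fun u v => inferInstanceAs (Decidable (a u.val v.val = true))

def ms (m : ℕ) : Bool :=
  allLt 14 (fun i => !m.testBit i || allLt 14 (fun j => !m.testBit j || !a i j)) &&
  allLt 14 (fun v => m.testBit v || anyLt 14 (fun u => m.testBit u && a v u))

def all2 (p : ℕ → Bool) : Bool := allLt 128 (fun h => allLt 128 (fun l => p (128 * h + l)))

theorem all2_spec {p : ℕ → Bool} (h : all2 p = true) (m : ℕ) (hm : m < 16384) : p m = true := by
  have := (allLt_iff _ _).1 ((allLt_iff _ _).1 h (m / 128) (by omega)) (m % 128) (by omega)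
  rwa [Nat.div_add_mod] at this

theorem c1 : all2 (fun m =>
    ms m == Nat.beq (sumLt 14 (fun i => bif m.testBit i then w i else 0)) 154) = true := by
  decide +kernel

theorem c2 : all2 (fun m =>
    !(allLt 14 (fun i => !m.testBit i || allLt i (fun j => !m.testBit j || a i j))) ||
      anyLt 9 (fun x => allLt 14 (fun i => !m.testBit i || !st x i))) = true := by
  decide +kernel

theorem mask (S : Finset (Fin 14)) : ∃ m < 16384, ∀ i : Fin 14, m.testBit i = true ↔ i ∈ S := by
  refine ⟨Nat.ofBits (fun i : Fin 14 => decide (i ∈ S)), Nat.ofBits_lt_two_pow _, fun i => ?_⟩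
  rw [Nat.testBit_ofBits_lt _ _ i.isLt]
  simp

theorem max_iff (S : Finset (Fin 14)) :
    Maximal (fun T : Finset (Fin 14) => G.IsIndepSet (T : Set (Fin 14))) S ↔
      (∀ i ∈ S, ∀ j ∈ S, ¬ G.Adj i j) ∧ ∀ v, v ∈ S ∨ ∃ u ∈ S, G.Adj v u := by
  constructor
  · intro h
    have h1 : ∀ i ∈ S, ∀ j ∈ S, ¬ G.Adj i j := fun i hi j hj e => h.1 hi hj e.ne e
    refine ⟨h1, fun v => ?_⟩
    by_contra hc
    push Not at hc
    apply hc.1
    apply h.2 (y := insert v S) _ (Finset.subset_insert _ _) (Finset.mem_insert_self _ _)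
    intro i hi j hj hne e
    simp only [Finset.coe_insert, Set.mem_insert_iff, Finset.mem_coe] at hi hj
    rcases hi with rfl | hi <;> rcases hj with rfl | hj
    · exact hne rfl
    · exact hc.2 j hj e
    · exact hc.2 i hi e.symm
    · exact h1 i hi j hj e
  · rintro ⟨h1, h2⟩
    refine ⟨fun i hi j hj _ => h1 i hi j hj, fun T hT hST v hv => ?_⟩
    rcases h2 v with h | ⟨u, hu, e⟩
    · exact h
    · exact absurd e (hT hv (hST hu) e.ne)

theorem equi (S : Finset (Fin 14)) :
    Maximal (fun T : Finset (Fin 14) => G.IsIndepSet (T : Set (Fin 14))) S ↔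
      ∑ v ∈ S, w v.val = 154 := by
  obtain ⟨m, hm, h⟩ := mask S
  have h1 := all2_spec c1 m hm
  have h2 : sumLt 14 (fun i => bif m.testBit i then w i else 0) = ∑ v ∈ S, w v.val := by
    rw [sumLt_eq, Finset.sum_range, ← Finset.sum_filter_of_ne (p := fun i => i ∈ S)]
    · have : Finset.univ.filter (fun i => i ∈ S) = S := by simp
      rw [this]
      apply Finset.sum_congr rfl
      intro i hi
      rw [(h i).2 hi]
      rfl
    · intro i _ hne
      rw [← h]
      cases hb : m.testBit i
      · simp [hb] at hne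
      · rfl
  rw [h2, beq_iff_eq] at h1
  rw [← Nat.beq_eq, ← h1, max_iff]
  unfold ms
  simp only [Bool.and_eq_true, allLt_iff, anyLt_iff, Bool.or_eq_true, Bool.not_eq_true']
  constructor
  · rintro ⟨k1, k2⟩
    constructor
    · intro i hi
      by_cases bi : m.testBit i = true
      · right
        intro j hj
        by_cases bj : m.testBit j = true
        · right
          simpa [G] using k1 ⟨i, hi⟩ ((h _).1 bi) ⟨j, hj⟩ ((h _).1 bj)
        · left; simpa using bj
      · left; simpa using bi
    · intro v hv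
      rcases k2 ⟨v, hv⟩ with e | ⟨u, hu, e⟩
      · exact Or.inl ((h _).2 e)
      · exact Or.inr ⟨u.val, u.isLt, (h _).2 hu, e⟩
  · rintro ⟨k1, k2⟩
    constructor
    · intro i hi j hj e
      have bi := (h i).2 hi
      have bj := (h j).2 hj
      rcases k1 i.val i.isLt with c | c
      · rw [bi] at c; simp at c
      · rcases c j.val j.isLt with c | c
        · rw [bj] at c; simp at c
        · have : a i.val j.val = true := e
          rw [this] at c; simp at c
    · intro v
      rcases k2 v.val v.isLt with c | ⟨u, hu, c1, c2⟩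
      · exact Or.inl ((h v).1 c)
      · exact Or.inr ⟨⟨u, hu⟩, (h _).1 c1, c2⟩

theorem clique_miss (C : Finset (Fin 14)) (hC : G.IsClique (C : Set (Fin 14))) :
    ∃ x : Fin 9, ∀ i ∈ C, st x.val i.val = false := by
  obtain ⟨m, hm, h⟩ := mask C
  have h1 := all2_spec c2 m hm
  rw [Bool.or_eq_true] at h1
  rcases h1 with h1 | h1
  · exfalso
    rw [Bool.not_eq_true', ← Bool.not_eq_true] at h1
    apply h1
    simp only [allLt_iff, Bool.or_eq_true, Bool.not_eq_true']
    intro i hi
    by_cases bi : m.testBit i = true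
    · right
      intro j hj
      by_cases bj : m.testBit j = true
      · right
        exact hC ((h ⟨i, hi⟩).1 bi) ((h ⟨j, by omega⟩).1 bj) (by simp; omega)
      · left; simpa using bj
    · left; simpa using bi
  · simp only [allLt_iff, anyLt_iff, Bool.or_eq_true, Bool.not_eq_true'] at h1
    obtain ⟨x, hx, h1⟩ := h1
    refine ⟨⟨x, hx⟩, fun i hi => ?_⟩
    rcases h1 i.val i.isLt with c | c
    · rw [(h i).2 hi] at c; simp at c
    · exact c

theorem pair : ∀ x : Fin 9, ∃ i j : Fin 14, i ≠ j ∧ ¬ G.Adj i j ∧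
    ∀ k : Fin 14, ¬ G.Adj i k → ¬ G.Adj j k → st x.val k.val = true := by
  decide +kernel

theorem edge : G.Adj 0 5 := by decide +kernel

end Pool.Agent.H.MP_59918e_co
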